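import Pool.Agent.H21.L.R_pool_sql_team_seeded_2aa45f1a.Q5.SZ.Main
import Pool.Agent.H21.L.R_pool_sql_team_seeded_2aa45f1a.Results.MP_92892c_nt.ExactMeanSquareRational

/-!
# The Riemann hypothesis for `L(E, s)` with simple zeros as a sharp bound for the product of Birch and Swinnerton-Dyer

Let `E : y² = x³ + a x + b` be an elliptic curve over `ℚ`, `f` its newform, `Λ` its completed `L`-function, `F` the
entire continuation of its incomplete `L`-series (the Euler factors at the primes dividing `2Δ` are removed), `N_p`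
the number of affine points modulo `p`,

`P(x) = ∏_{p ≤ x} (N_p + 1)/p`,  `P*(x) = P(x) exp (∑_{√x < p ≤ x} (a_p² - 2p)/(2p²))`

the original product of Birch and Swinnerton-Dyer with the SHARP cut-off, and the same product with the second order
terms. For real `ρ` and `A > 0` put `δ*(x) = log (A P*(x) / (e^γ log x)^ρ)` and let `r = ord_{s=1} Λ` and

`c_E = 2 Λ^(r+2)(1) / ((r+1) (r+2) Λ^(r)(1))`,

an explicit number. It is shown, for every such curve and without any further hypothesis: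

* `limsup (log X)⁻¹ ∫_e^X (log x · δ*(x))² dx/x ≤ c_E` IF AND ONLY IF all zeros of `Λ` are on the line `Re s = 1`,
  all of them except perhaps `s = 1` are simple, `ρ = r` and `F^(r)(1)/r! = A`;
* the inequality `limsup ≥ c_E` always holds;
* if `Λ` has all its zeros on the line `Re s = 1`, `ρ = r` and `F^(r)(1)/r! = A`, then `c_E > 0` and the limit exists
  and is equal to `c_E + ∑_{t ≠ 0} m_t (m_t - 1)/t²`, where `m_t` is the order of `Λ` at `1 + it`.

So the Riemann hypothesis for `E`, the simplicity of all zeros except the central one, the rank formula and the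
leading-term formula (with `ρ` the rank and `A` the predicted value times the Euler factors removed) are TOGETHER
equivalent to ONE inequality for the mean square of the error in the formula of Birch and Swinnerton-Dyer; this error
is as small as it can possibly be if and only if they all hold, and the excess of its mean square over `c_E` measures
the multiplicities. Moreover the error is never `o(1/log x)`, not even in square mean.

Proof. The mean square is `∑ m_t²/t²` if it is bounded (`ExactMeanSquareRational` of problem `MP_92892c_nt`), and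
then the Riemann hypothesis holds. By Hadamard's factorisation and the functional equation `∑ m_t/t²` is the second
logarithmic derivative of `Λ(s)/(s-1)^r` at `s = 1`, which is `c_E` (`Pool.Agent.Q5.SZ`).
-/

set_option autoImplicit false

namespace Pool.Agent.Results.MP_4a9ea6_nt.SimpleZeros

open Pool.Agent.W263.BSD Filter Topology Classical MeasureTheory Set Complex
open CongruenceSubgroup
open scoped MatrixGroups UpperHalfPlane
open Pool.Agent.Results.MP_8b7eba_nt.OneWindow (coef IsNewformOf NoZeros)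
open Pool.Agent.Results.MP_92892c_nt.ExactMeanSquareRational (devStar dev squares mult meanSquare LeadingRH
  BoundedMeanSquare SquareLaw)

/-- `f` is the newform of `E` (`IsNewformOf`) and `f(-1/(Nτ)) = -w N τ² f(τ)` with the root number `w = ± 1`. -/
structure IsFormOf (a b : ℤ) (N : ℕ) [NeZero N] (f : CuspForm (Gamma0 N : Subgroup (GL (Fin 2) ℝ)) 2) (w : ℝ) :
    Prop where
  form : IsNewformOf a b N f
  sign : w = 1 ∨ w = -1
  fricke : ∀ τ τ' : ℍ, (τ' : ℂ) * ((N : ℂ) * (τ : ℂ)) = -1 →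
    f τ' = -(w : ℂ) * (N : ℂ) * (τ : ℂ) ^ 2 * f τ

/-- `Λ` is the completed `L`-function of `f`: it is entire and
`Λ(s) = N^(s/2) (2π)^(-s) Γ(s) ∑ c(n) n^(-s)` for `Re s > 2`. -/
def IsCompleted {N : ℕ} [NeZero N] (f : CuspForm (Gamma0 N : Subgroup (GL (Fin 2) ℝ)) 2) (Λ : ℂ → ℂ) : Prop :=
  Differentiable ℂ Λ ∧ ∀ s : ℂ, 2 < s.re →
    Λ s = ((Real.sqrt N / (2 * Real.pi) : ℝ) : ℂ) ^ s * Complex.Gamma s *
      ∑' n : ℕ, coef f (n + 1) * ((n + 1 : ℕ) : ℂ) ^ (-s)

/-- All zeros of `Λ` are on the line `Re s = 1`. -/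
def RH (Λ : ℂ → ℂ) : Prop := ∀ s : ℂ, Λ s = 0 → s.re = 1

/-- All zeros of `Λ` except perhaps `s = 1` are simple. -/
def Simple (Λ : ℂ → ℂ) : Prop := ∀ s : ℂ, s ≠ 1 → Λ s = 0 → deriv Λ s ≠ 0

/-- `ρ = ord_{s=1} F` and `F^(ρ)(1)/ρ! = A`. -/
def Formula (F : ℂ → ℂ) (ρ A : ℝ) : Prop :=
  ∃ r : ℕ, ρ = r ∧ analyticOrderAt F 1 = r ∧ iteratedDeriv r F 1 / (r.factorial : ℂ) = A

/-- The order of `Λ` at `s = 1`. -/
noncomputable def ord (Λ : ℂ → ℂ) : ℕ := (analyticOrderAt Λ 1).toNat

/-- `c_E = 2 Λ^(r+2)(1) / ((r+1) (r+2) Λ^(r)(1))`, `r` the order of `Λ` at `s = 1`. -/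
noncomputable def cE (Λ : ℂ → ℂ) : ℝ :=
  (2 * iteratedDeriv (ord Λ + 2) Λ 1 / ((ord Λ + 1) * (ord Λ + 2) * iteratedDeriv (ord Λ) Λ 1)).re

/-- `limsup S ≤ c`. -/
def AtMost (S : ℝ → ℝ) (c : ℝ) : Prop := ∀ ε : ℝ, 0 < ε → ∀ᶠ X : ℝ in atTop, S X ≤ c + ε

/-- The sharp bound for the mean square of the error term `δ`: `limsup ≤ c_E` if and only if all zeros of `Λ` are on
the line `Re s = 1` and, except perhaps `s = 1`, simple, and `Formula F ρ A`; always `limsup ≥ c_E`; under `RH Λ` and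
`Formula F ρ A` the number `c_E` is positive and the limit is `c_E + ∑ m_t (m_t - 1)/t²`. -/
def SharpBound (F Λ : ℂ → ℂ) (ρ A : ℝ) (δ : ℝ → ℝ) : Prop :=
  (AtMost (meanSquare δ) (cE Λ) ↔ RH Λ ∧ Simple Λ ∧ Formula F ρ A) ∧
  (∀ B : ℝ, (∀ᶠ X : ℝ in atTop, meanSquare δ X ≤ B) → cE Λ ≤ B) ∧
  (RH Λ → Formula F ρ A → 0 < cE Λ ∧ ∃ M : ℝ,
    HasSum (fun t : ℝ => (mult Λ t : ℝ) * ((mult Λ t : ℝ) - 1) / t ^ 2) M ∧
    Tendsto (meanSquare δ) atTop (𝓝 (cE Λ + M)))

/-! ### translation -/

open Pool.Agent.Q5.BP (mu)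
open Pool.Agent.Q5.SZ (LamN completed_eq lamN_diff lamN_fe lamN_L lf_shift Frk compl_frk order_link cst tz
  not_monomial simple_iff)
open Pool.Agent.Results.MP_8b7eba_nt.OneWindow (hecke)

theorem simple_order {Λ : ℂ → ℂ} (hΛ : Differentiable ℂ Λ) {s : ℂ} (hs : Λ s = 0) :
    deriv Λ s ≠ 0 ↔ analyticOrderAt Λ s = 1 := by
  have h1 := (hΛ.analyticAt s).analyticOrderAt_deriv_add_one
  rw [hs] at h1
  simp only [sub_zero] at h1
  have h2 := (hΛ.analyticAt s).deriv.analyticOrderAt_eq_zero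
  rw [← h2]
  have h3 : (fun z => Λ z) = Λ := rfl
  rw [← h1]
  constructor
  · intro h
    rw [h, zero_add]
  · intro h
    have h4 : analyticOrderAt (deriv Λ) s ≠ ⊤ := by
      intro h5
      rw [h5] at h
      simp at h
    obtain ⟨n, hn⟩ := ENat.ne_top_iff_exists.1 h4
    rw [← hn] at h ⊢
    have h5 : n + 1 = 1 := by exact_mod_cast h
    have h6 : n = 0 := by omega
    rw [h6]
    rfl

/-- **The sharp bound for the product of Birch and Swinnerton-Dyer.** -/
theorem result (a b : ℤ) (hΔ : 4 * a ^ 3 + 27 * b ^ 2 ≠ 0) (F : ℂ → ℂ) (hF : IsLSeries a b F)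
    (N : ℕ) [NeZero N] (f : CuspForm (Gamma0 N : Subgroup (GL (Fin 2) ℝ)) 2) (w : ℝ)
    (hf : IsFormOf a b N f w) :
    ∃ Λ : ℂ → ℂ, IsCompleted f Λ ∧ (∀ Λ', IsCompleted f Λ' → Λ' = Λ) ∧
      (∀ s : ℂ, Λ (2 - s) = (w : ℂ) * Λ s) ∧ ∀ ρ A : ℝ, 0 < A →
        SharpBound F Λ ρ A (devStar a b ρ A) ∧
        (Tendsto (fun x : ℝ => Real.log x * (squares a b x + Real.log 2 / 2)) atTop (𝓝 0) →
          SharpBound F Λ ρ A (dev a b ρ A)) := by
  have hfr : Frk f w := hf.fricke
  have hcomp : IsCompleted f (LamN f) := by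
    refine ⟨lamN_diff f, fun s hs => ?_⟩
    rw [lamN_L f (by linarith), ← lf_shift f hs]
    rfl
  refine ⟨LamN f, hcomp, fun Λ' h' => completed_eq h'.1 h'.2, lamN_fe hfr hf.sign, ?_⟩
  intro ρ A hA
  set Λ : ℂ → ℂ := LamN f with hΛdef
  have hΛd : Differentiable ℂ Λ := lamN_diff f
  have hfe : ∀ s : ℂ, Λ (2 - s) = (w : ℂ) * Λ s := lamN_fe hfr hf.sign
  have hlink : ∀ z : ℂ, 1 ≤ z.re → analyticOrderAt F z = analyticOrderAt Λ z := fun z hz =>
    order_link hΔ hF (hecke hf.form) (fun p hp => hf.form.points p hp) hz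
  obtain ⟨r, hr⟩ := Pool.Agent.W189.ML.order_finite_all hF 1
  have hrΛ : analyticOrderAt Λ 1 = r := by rw [← hlink 1 (by simp), hr]
  have hord : ord Λ = r := by
    unfold ord
    rw [hrΛ]
    rfl
  obtain ⟨K, hC⟩ := compl_frk hfr hf.sign hrΛ
  -- the zeros
  have hRH : RH Λ ↔ NoZeros F := by
    have e : ∀ s : ℂ, 1 ≤ s.re → (F s = 0 ↔ Λ s = 0) := by
      intro s hs
      rw [← (hF.1.analyticAt s).analyticOrderAt_ne_zero, ← (hΛd.analyticAt s).analyticOrderAt_ne_zero,
        hlink s hs]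
    constructor
    · intro h s hs h0
      have := h s ((e s hs.le).1 h0)
      linarith
    · intro h s hs
      rcases lt_trichotomy s.re 1 with hlt | heq | hgt
      · exfalso
        have h1 : Λ (2 - s) = 0 := by rw [hfe, hs, mul_zero]
        have h2 : 1 < (2 - s).re := by
          rw [Complex.sub_re]
          norm_num
          linarith
        exact h _ h2 ((e _ h2.le).2 h1)
      · exact heq
      · exact absurd ((e s hgt.le).2 hs) (h s hgt)
  have hmult : ∀ t : ℝ, mult F t = mult Λ t := by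
    intro t
    unfold mult
    rw [hlink _ (by simp)]
  have hmu : ∀ t : ℝ, mu (fun z => Λ (1 + z)) t = mult Λ t := Pool.Agent.Q5.BP.mu_shift Λ 1
  -- the constant
  have hcst : (cst (fun z => Λ (1 + z)) r).re = cE Λ := by
    unfold cst cE
    have e : ∀ n : ℕ, iteratedDeriv n (fun z => Λ (1 + z)) 0 = iteratedDeriv n Λ 1 := by
      intro n
      rw [iteratedDeriv_comp_const_add]
      simp
    rw [e, e, hord]
  have hzero : RH Λ → ∀ v : ℂ, v ≠ 0 → Λ (1 + v) = 0 → v.re = 0 := by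
    intro h v _ hv
    have := h _ hv
    simpa using this
  have htz : tz (fun z => Λ (1 + z)) = fun t : ℝ => (mult Λ t : ℝ) / t ^ 2 := by
    funext t
    unfold tz
    rw [hmu]
  have hsum : RH Λ → HasSum (fun t : ℝ => (mult Λ t : ℝ) / t ^ 2) (cE Λ) := by
    intro h
    obtain ⟨c, h1, h2⟩ := hC.sum (hzero h)
    have h3 : c = cE Λ := by rw [← hcst, h1, Complex.ofReal_re]
    rw [← h3]
    rwa [htz] at h2
  have hP : LeadingRH F ρ A ↔ RH Λ ∧ Formula F ρ A := by
    unfold LeadingRH Formula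
    rw [hRH]
  suffices key : ∀ δ : ℝ → ℝ, List.TFAE [LeadingRH F ρ A, BoundedMeanSquare δ, SquareLaw F δ] →
      SharpBound F Λ ρ A δ by
    obtain ⟨⟨htf, -⟩, h2⟩ := Pool.Agent.Results.MP_92892c_nt.ExactMeanSquareRational.result a b hΔ F hF N f
      hf.form ρ A hA
    exact ⟨key _ htf, fun h => key _ (h2 h).1⟩
  intro δ htf
  have h1 : RH Λ ∧ Formula F ρ A → ∃ V : ℝ, HasSum (fun t : ℝ => ((mult Λ t : ℝ) / t) ^ 2) V ∧
      Tendsto (meanSquare δ) atTop (𝓝 V) := by
    intro h
    obtain ⟨V, hV, hT⟩ := (htf.out 0 2).1 (hP.2 h)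
    refine ⟨V, ?_, hT⟩
    simp only [hmult] at hV
    exact hV
  have h2 : (∃ B : ℝ, ∀ᶠ X : ℝ in atTop, meanSquare δ X ≤ B) →
      RH Λ ∧ Formula F ρ A := by
    rintro ⟨B, hB⟩
    have h3 : LeadingRH F ρ A ↔ BoundedMeanSquare δ := htf.out 0 1
    refine hP.1 (h3.2 ⟨B, ?_⟩)
    filter_upwards [hB, eventually_gt_atTop 1] with X hX hX1
    have hl : 0 < Real.log X := Real.log_pos hX1
    unfold meanSquare at hX
    rwa [div_le_iff₀ hl] at hX
  obtain ⟨k1, k2, k3⟩ := simple_iff (m := mult Λ) h1 h2 fun h => hsum h.1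
  have hsimple : RH Λ → (Simple Λ ↔ ∀ t : ℝ, t ≠ 0 → mult Λ t ≤ 1) := by
    intro h
    constructor
    · intro hS t ht
      by_cases h0 : Λ (1 + t * I) = 0
      · have h3 := (simple_order hΛd h0).1 (hS _ (fun h4 => ht (by
          have := congrArg Complex.im h4
          simpa using this)) h0)
        unfold mult
        rw [h3]
        exact le_rfl
      · unfold mult
        rw [((hΛd.analyticAt _).analyticOrderAt_eq_zero).2 h0]
        exact Nat.zero_le 1
    · intro hm s hs h0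
      have h3 : s = 1 + (s.im : ℂ) * I := by
        apply Complex.ext
        · simp [h s h0]
        · simp
      have h4 : s.im ≠ 0 := fun h5 => hs (by rw [h3, h5]; simp)
      have h5 := hm s.im h4
      unfold mult at h5
      rw [← h3] at h5
      rw [simple_order hΛd h0]
      have h6 : analyticOrderAt Λ s ≠ 0 := by
        rw [(hΛd.analyticAt s).analyticOrderAt_ne_zero]
        exact h0
      have h7 : analyticOrderAt Λ s ≠ ⊤ := by
        intro h8
        rw [analyticOrderAt_eq_top] at h8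
        have han : AnalyticOnNhd ℂ Λ Set.univ := fun z _ => hΛd.analyticAt z
        have h9 := han.eqOn_zero_of_preconnected_of_eventuallyEq_zero isPreconnected_univ
          (Set.mem_univ s) h8
        have h10 : analyticOrderAt Λ 1 = ⊤ := by
          rw [analyticOrderAt_eq_top]
          exact Eventually.of_forall fun z => h9 (Set.mem_univ z)
        rw [hrΛ] at h10
        exact ENat.natCast_ne_top _ h10
      obtain ⟨n, hn⟩ := ENat.ne_top_iff_exists.1 h7
      rw [← hn] at h5 h6 ⊢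
      have h8 : n ≤ 1 := by simpa using h5
      have h9 : n ≠ 0 := fun h => h6 (by rw [h]; rfl)
      have h10 : n = 1 := by omega
      rw [h10]
      rfl
  refine ⟨?_, k2, fun hR hFm => ?_⟩
  · have k1' : AtMost (meanSquare δ) (cE Λ) ↔ (RH Λ ∧ Formula F ρ A) ∧
      ∀ t : ℝ, t ≠ 0 → mult Λ t ≤ 1 := k1
    rw [k1']
    constructor
    · rintro ⟨⟨h3, h4⟩, h5⟩
      exact ⟨h3, (hsimple h3).2 h5, h4⟩
    · rintro ⟨h3, h4, h5⟩
      exact ⟨⟨h3, h5⟩, (hsimple h3).1 h4⟩
  · obtain ⟨M, hM, -, hT⟩ := k3 ⟨hR, hFm⟩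
    refine ⟨?_, M, hM, hT⟩
    have h3 : HasSum (tz fun z => Λ (1 + z)) (cE Λ) := by
      rw [htz]
      exact hsum hR
    exact hC.pos (hzero hR) h3 (not_monomial hf.form.one r)

end Pool.Agent.Results.MP_4a9ea6_nt.SimpleZeros
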